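import Pool.Agent.H14.RG.FinM

/-!
# A negative answer: a continuous `w`-psh function, for a smooth semi-positive big form `w` on a
compact Kaehler manifold of dimension 3, which is not a limit of `w`-psh functions of class `C ^ 1`

The definitions used (`PshOn`, `ClosedForm`, `ClosedForm.Psh`, `levi`, `ClosedForm.SemiposL`,
`ClosedForm.PosAtL`) are in `Pool.Agent.H14.RG.Defs` and `Pool.Agent.H14.RG.DefsL`.
-/

open scoped Manifold ContDiff Topology

namespace Pool.Agent.Results.MP_c7bff1_an.NoSmoothApproximation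

/-- There are a compact connected complex manifold `X` of dimension 3 with a Kaehler form `κ`, a
smooth closed semi-positive form `w` on `X`, positive definite at some point (so that the integral
of `w ^ 3` over `X` is positive), and a continuous `w`-psh function `φ` on `X`, such that no
sequence of `w`-psh functions of class `C ^ 1` converges to `φ` at every point of `X`. In
particular `φ` is not the decreasing limit of a sequence of smooth `w`-psh functions. -/
theorem result :
    ∃ (X : Type) (_ : TopologicalSpace X) (_ : ChartedSpace (Fin 3 → ℂ) X),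
      T2Space X ∧ CompactSpace X ∧ ConnectedSpace X ∧ IsManifold 𝓘(ℂ, Fin 3 → ℂ) ω X ∧
      (∃ κ : RG.ClosedForm (Fin 3 → ℂ) X, ∀ x, κ.PosAtL x) ∧
      ∃ w : RG.ClosedForm (Fin 3 → ℂ) X, w.SemiposL ∧ (∃ x, w.PosAtL x) ∧
        ∃ φ : X → ℝ, Continuous φ ∧ w.Psh φ ∧
          ∀ u : ℕ → X → ℝ,
            (∀ j, ContMDiff 𝓘(ℝ, Fin 3 → ℂ) 𝓘(ℝ, ℝ) 1 (u j) ∧ w.Psh (u j)) →
            ¬ ∀ x, Filter.Tendsto (fun j => u j x) Filter.atTop (𝓝 (φ x)) :=
  RG.goalL

end Pool.Agent.Results.MP_c7bff1_an.NoSmoothApproximation
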